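import Pool.Agent.W323.PT.Stm

/-!
# PT-Two: collinear triples have small weight
-/

set_option autoImplicit false

namespace Pool.Agent.W253.PT

open Pool.Agent.W323.PT

theorem avg {m : ℕ} {ι : Type} [Fintype ι] (w : ι → ℝ) (hw : ∀ i, 0 ≤ w i)
    (h1 : ∑ i, w i = 1) (s : Fin m) (G : (Fin m → ι) → ℝ) (c : ℝ)
    (h : ∀ f, ∑ i, w i * G (Function.update f s i) ≤ c) :
    ∑ f : Fin m → ι, (∏ t, w (f t)) * G f ≤ c := by
  classical
  have hne : Nonempty ι := by
    by_contra hcon
    rw [not_nonempty_iff] at hcon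
    simp at h1
  obtain ⟨a0⟩ := hne
  have hs : ∀ (a : ι) (g : {j : Fin m // j ≠ s} → ι), (Equiv.funSplitAt s ι).symm (a, g) s = a := by
    intro a g
    simp [Equiv.funSplitAt, Equiv.piSplitAt]
  have ht : ∀ (a : ι) (g : {j : Fin m // j ≠ s} → ι) (t : {j : Fin m // j ≠ s}),
      (Equiv.funSplitAt s ι).symm (a, g) t.1 = g t := by
    intro a g t
    simp [Equiv.funSplitAt, Equiv.piSplitAt, t.2]
  have hu : ∀ (a : ι) (g : {j : Fin m // j ≠ s} → ι),
      (Equiv.funSplitAt s ι).symm (a, g) =
        Function.update ((Equiv.funSplitAt s ι).symm (a0, g)) s a := by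
    intro a g
    funext t
    by_cases hts : t = s
    · subst hts
      rw [hs, Function.update_self]
    · rw [Function.update_of_ne hts]
      rw [ht a g ⟨t, hts⟩, ht a0 g ⟨t, hts⟩]
  rw [← (Equiv.funSplitAt s ι).symm.sum_comp, Fintype.sum_prod_type_right]
  calc ∑ g : {j : Fin m // j ≠ s} → ι, ∑ a : ι,
        (∏ t, w ((Equiv.funSplitAt s ι).symm (a, g) t)) * G ((Equiv.funSplitAt s ι).symm (a, g))
      = ∑ g : {j : Fin m // j ≠ s} → ι, (∏ t, w (g t)) *
          ∑ a : ι, w a * G (Function.update ((Equiv.funSplitAt s ι).symm (a0, g)) s a) := by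
        refine Finset.sum_congr rfl fun g _ => ?_
        rw [Finset.mul_sum]
        refine Finset.sum_congr rfl fun a _ => ?_
        rw [Fintype.prod_eq_mul_prod_subtype_ne _ s, hs, ← hu]
        have : ∏ t : {j : Fin m // j ≠ s}, w ((Equiv.funSplitAt s ι).symm (a, g) t.1) =
            ∏ t, w (g t) := Finset.prod_congr rfl fun t _ => by rw [ht]
        rw [this]
        ring
    _ ≤ ∑ g : {j : Fin m // j ≠ s} → ι, (∏ t, w (g t)) * c := by
        refine Finset.sum_le_sum fun g _ => ?_
        exact mul_le_mul_of_nonneg_left (h _) (Finset.prod_nonneg fun t _ => hw _)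
    _ = c := by
        rw [← Finset.sum_mul]
        have h2 : ∑ g : {j : Fin m // j ≠ s} → ι, ∏ t, w (g t) = 1 := by
          have h3 := Finset.prod_univ_sum (fun _ : {j : Fin m // j ≠ s} => (Finset.univ : Finset ι))
            (fun _ i => w i)
          rw [Fintype.piFinset_univ] at h3
          rw [← h3]
          simp [h1]
        rw [h2, one_mul]

theorem two : S_Two := by
  classical
  intro m β hβ ι _ w P hw h1 hl i j k b1 b2 b3 hij hik hjk
  -- coinciding points
  have hpt : ∀ (a : Pt) (e : Bool), ∑ t, w t * (if a = P e t then (1 : ℝ) else 0) ≤ β := by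
    intro a e
    have hab : a ≠ (a.1 + 1, a.2) := by
      intro h
      have := congrArg Prod.fst h
      simp at this
    refine le_trans ?_ (hl a (a.1 + 1, a.2) e hab)
    unfold mass
    refine Finset.sum_le_sum fun t _ => ?_
    by_cases h : a = P e t
    · have h0 : o a (a.1 + 1, a.2) (P e t) = 0 := by
        rw [← h]; simp [o]
      rw [if_pos h, if_pos h0, mul_one]
    · rw [if_neg h, mul_zero]
      split_ifs
      · exact hw t
      · exact le_rfl
  have hg1 : ∑ f : Fin m → ι, (∏ t, w (f t)) *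
      (if P b1 (f i) = P b2 (f j) then (1 : ℝ) else 0) ≤ β := by
    refine avg w hw h1 j (fun f => if P b1 (f i) = P b2 (f j) then (1 : ℝ) else 0) β ?_
    intro f
    have := hpt (P b1 (f i)) b2
    refine le_trans (le_of_eq ?_) this
    refine Finset.sum_congr rfl fun a _ => ?_
    simp only [Function.update_of_ne hij, Function.update_self]
  have hg2 : ∑ f : Fin m → ι, (∏ t, w (f t)) *
      (if P b1 (f i) ≠ P b2 (f j) ∧ o (P b1 (f i)) (P b2 (f j)) (P b3 (f k)) = 0
        then (1 : ℝ) else 0) ≤ β := by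
    refine avg w hw h1 k (fun f => if P b1 (f i) ≠ P b2 (f j) ∧
      o (P b1 (f i)) (P b2 (f j)) (P b3 (f k)) = 0 then (1 : ℝ) else 0) β ?_
    intro f
    simp only [Function.update_of_ne hik, Function.update_of_ne hjk, Function.update_self]
    by_cases h : P b1 (f i) = P b2 (f j)
    · simp [h, hβ]
    · refine le_trans (le_of_eq ?_) (hl _ _ b3 h)
      unfold mass
      refine Finset.sum_congr rfl fun a _ => ?_
      by_cases h' : o (P b1 (f i)) (P b2 (f j)) (P b3 a) = 0
      · rw [if_pos ⟨h, h'⟩, if_pos h', mul_one]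
      · rw [if_neg (fun hh => h' hh.2), if_neg h', mul_zero]
  have hW : ∀ f : Fin m → ι, 0 ≤ ∏ t, w (f t) := fun f => Finset.prod_nonneg fun t _ => hw _
  calc mass (fun f : Fin m → ι => ∏ t, w (f t))
        (fun f => o (P b1 (f i)) (P b2 (f j)) (P b3 (f k)) = 0)
      ≤ ∑ f : Fin m → ι, ((∏ t, w (f t)) * (if P b1 (f i) = P b2 (f j) then (1 : ℝ) else 0) +
        (∏ t, w (f t)) * (if P b1 (f i) ≠ P b2 (f j) ∧
          o (P b1 (f i)) (P b2 (f j)) (P b3 (f k)) = 0 then (1 : ℝ) else 0)) := by
        unfold mass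
        refine Finset.sum_le_sum fun f _ => ?_
        have := hW f
        by_cases h : P b1 (f i) = P b2 (f j)
        · have h2 : ¬ (P b1 (f i) ≠ P b2 (f j) ∧
              o (P b1 (f i)) (P b2 (f j)) (P b3 (f k)) = 0) := fun hh => hh.1 h
          rw [if_pos h, if_neg h2]
          split_ifs <;> linarith
        · rw [if_neg h]
          by_cases h' : o (P b1 (f i)) (P b2 (f j)) (P b3 (f k)) = 0
          · rw [if_pos h', if_pos ⟨h, h'⟩]
            linarith
          · have h2 : ¬ (P b1 (f i) ≠ P b2 (f j) ∧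
                o (P b1 (f i)) (P b2 (f j)) (P b3 (f k)) = 0) := fun hh => h' hh.2
            rw [if_neg h', if_neg h2]
            linarith
    _ ≤ 2 * β := by
        rw [Finset.sum_add_distrib]
        linarith

end Pool.Agent.W253.PT
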